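import Pool.Agent.FHQ.StmtsG

/-!
# Squad FHQ, LDT: three families built from a definable family
-/

set_option autoImplicit false

noncomputable section

namespace Pool.Agent.FHQ.H76

theorem app_comp {X : Type} {m a b : ℕ} (f : Fin m → X) (s : Fin a → Fin m) (t : Fin b → Fin m) :
    (fun v => f (Fin.append s t v)) = Fin.append (fun i => f (s i)) (fun j => f (t j)) := by
  funext v
  induction v using Fin.addCases with
  | left i => simp only [Fin.append_left]
  | right j => simp only [Fin.append_right]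

theorem cons_comp {X : Type} {m a : ℕ} (f : Fin m → X) (s : Fin m) (t : Fin a → Fin m) :
    (fun i => f ((Fin.cons s t : Fin (a + 1) → Fin m) i)) =
      (Fin.cons (f s) (fun i => f (t i)) : Fin (a + 1) → X) := by
  funext v
  induction v using Fin.cases with
  | zero => simp only [Fin.cons_zero]
  | succ j => simp only [Fin.cons_succ]

theorem ldt1 (hldc : LdcStmt) (d n k : ℕ) (S : Fam (d + 1 + n)) (hS : LD (d + 1 + n) S) :
    ∃ T : Fam (1 + k * n),
    LD (1 + k * n) T ∧ ∀ (p : ℕ) (K : Type) [Field K] (A : AcF p K) (z : Fin 1 → K)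
      (w : Fin (k * n) → K), T p K A (Fin.append z w) ↔ ∃ x' : Fin d → K, ∀ i : Fin k,
        S p K A (Fin.append (Fin.cons (z 0) x') (fun j => w (finProdFinEquiv (i, j)))) := by
  obtain ⟨hren, -, hall, hex⟩ := hldc
  have h1 := hex d (1 + k * n) _ (hall (d + (1 + k * n)) k _ (fun i =>
    hren (d + 1 + n) (d + (1 + k * n)) S hS
      (Fin.append (Fin.cons (Fin.natAdd d (Fin.castAdd (k * n) 0))
          (fun j : Fin d => Fin.castAdd (1 + k * n) j) : Fin (d + 1) → Fin (d + (1 + k * n)))
        (fun j : Fin n => Fin.natAdd d (Fin.natAdd 1 (finProdFinEquiv (i, j)))))))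
  refine ⟨_, h1, ?_⟩
  intro p K _ A z w
  refine exists_congr fun x' => forall_congr' fun i => ?_
  rw [app_comp, cons_comp]
  simp only [Fin.append_left, Fin.append_right]

/-- LDT -/
theorem ldt (hldc : LdcStmt) : LdtStmt := by
  refine ⟨ldt1 hldc, ?_, ?_⟩
  · intro d n k S hS
    obtain ⟨T, hT, h⟩ := ldt1 hldc d n k S hS
    refine ⟨_, hldc.1 (1 + k * n) (k * n + 1) T hT
      (Fin.append (fun _ : Fin 1 => (0 : Fin (k * n + 1))) (fun j : Fin (k * n) => j.succ)), ?_⟩
    intro p K _ A z w
    have h2 := h p K A (fun _ => z) w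
    rw [← h2, app_comp]
    simp only [Fin.cons_zero, Fin.cons_succ]
  · intro d n S hS
    refine ⟨_, hldc.1 (d + 1 + n) (d + (n + 1)) S hS
      (Fin.append (Fin.cons (Fin.natAdd d 0)
          (fun j : Fin d => Fin.castAdd (n + 1) j) : Fin (d + 1) → Fin (d + (n + 1)))
        (fun j : Fin n => Fin.natAdd d j.succ)), ?_⟩
    intro p K _ A z x' b
    rw [app_comp, cons_comp]
    simp only [Fin.append_left, Fin.append_right, Fin.cons_zero, Fin.cons_succ]

end Pool.Agent.FHQ.H76
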